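import Pool.Agent.W5h66.Sy
import Pool.Agent.W5h66.Ex
import Pool.Agent.W5h66.Ad

/-! The Hecke lifting congruence for framed links. -/

namespace Pool.Agent.Results.MP_21a901_gt.FramedLinks

open Pool.Agent

/-- The field `ℚ(a)(q)` of rational functions in `a` and `q`. -/
abbrev F := RatFunc (RatFunc ℚ)

/-- The variable `q`. -/
noncomputable def q : F := RatFunc.X
/-- The variable `a`. -/
noncomputable def a : F := RatFunc.C RatFunc.X
/-- `{k} = q^k - q^(-k)`. -/
noncomputable def br (k : ℕ) : F := q ^ k - (q ^ k)⁻¹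
/-- `[k] = {k}/{1}`. -/
noncomputable def qint (k : ℕ) : F := br k / br 1

/-- Braid words. The letter `(i, true)` is the generator crossing strands `i` and `i+1`
positively, `(i, false)` is its inverse; strands are numbered from `0`. -/
abbrev Word := List (ℕ × Bool)

/-- The word is a braid word on `n` strands. -/
def OnStrands (n : ℕ) (w : Word) : Prop := ∀ x ∈ w, x.1 + 1 < n

/-- `H n w` is the framed HOMFLY-PT invariant of the closure of the braid word `w` on `n` strands,
with the blackboard framing. -/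
structure IsHomfly (H : ℕ → Word → F) : Prop where
  unknot : H 1 [] = (a - a⁻¹) / br 1
  conj : ∀ n u v, 1 ≤ n → OnStrands n (u ++ v) → H n (u ++ v) = H n (v ++ u)
  cancel : ∀ n u v i e, 1 ≤ n → OnStrands n (u ++ v) → i + 1 < n →
    H n (u ++ (i, e) :: (i, !e) :: v) = H n (u ++ v)
  far : ∀ n u v i j e f, 1 ≤ n → OnStrands n (u ++ v) → i + 1 < n → j + 1 < n → i + 2 ≤ j →
    H n (u ++ (i, e) :: (j, f) :: v) = H n (u ++ (j, f) :: (i, e) :: v)
  braid : ∀ n u v i e, 1 ≤ n → OnStrands n (u ++ v) → i + 2 < n →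
    H n (u ++ (i, e) :: (i + 1, e) :: (i, e) :: v) = H n (u ++ (i + 1, e) :: (i, e) :: (i + 1, e) :: v)
  stabPos : ∀ n w, 1 ≤ n → OnStrands n w → H (n + 1) (w ++ [(n - 1, true)]) = a * H n w
  stabNeg : ∀ n w, 1 ≤ n → OnStrands n w → H (n + 1) (w ++ [(n - 1, false)]) = a⁻¹ * H n w
  skein : ∀ n u v i, 1 ≤ n → OnStrands n (u ++ v) → i + 1 < n →
    H n (u ++ (i, true) :: v) - H n (u ++ (i, false) :: v) = br 1 * H n (u ++ v)

/-- The permutation of the strands given by a braid word. -/
def perm (w : Word) : Equiv.Perm ℕ := (w.map fun x => Equiv.swap x.1 (x.1 + 1)).prod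

open Classical in
/-- The components of the closure of `w` on `n` strands: the least positions of the cycles of its
permutation on `0, …, n-1`. -/
noncomputable def comps (n : ℕ) (w : Word) : Finset ℕ :=
  (Finset.range n).filter fun i => ∀ j, (perm w).SameCycle i j → i ≤ j

open Classical in
/-- The framing of the component through position `i`: the sum of the signs of the crossings at
which both strands belong to that component. -/
noncomputable def framing (w : Word) (i : ℕ) : ℤ :=
  ∑ k : Fin w.length, if (perm w).SameCycle i (perm (w.take k) (w.get k).1) ∧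
    (perm w).SameCycle i (perm (w.take k) ((w.get k).1 + 1)) then (if (w.get k).2 then 1 else -1) else 0

/-- Shift of a word by `m` strands. -/
def shiftWord (m : ℕ) (w : Word) : Word := w.map fun x => (m + x.1, x.2)

/-- Crossing of two bundles of `d` parallel strands. -/
def band (d : ℕ) (e : Bool) : Word :=
  (List.range d).reverse.flatMap fun r => (List.range d).map fun i => (r + i, e)

/-- The `d`-strand cable of a braid word. -/
def cable (d : ℕ) (w : Word) : Word := w.flatMap fun x => shiftWord (x.1 * d) (band d x.2)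

/-- Formal linear combinations of braid words, with concatenation as product. -/
abbrev Comb := MonoidAlgebra F (FreeMonoid (ℕ × Bool))

/-- A word as a formal combination. -/
noncomputable def wd (w : Word) : Comb := MonoidAlgebra.single (FreeMonoid.ofList w) 1

/-- Shift of a combination by `m` strands. -/
noncomputable def shift (m : ℕ) : Comb →ₐ[F] Comb :=
  MonoidAlgebra.mapDomainAlgHom F F (FreeMonoid.map fun x : ℕ × Bool => (m + x.1, x.2))

/-- Linear extension of an invariant to combinations of words on `n` strands. -/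
noncomputable def ext (H : ℕ → Word → F) (n : ℕ) (x : Comb) : F :=
  x.coeff.sum fun w c => c * H n (FreeMonoid.toList w)

/-- The quantum symmetrizer on `n` strands: the sum over all permutations `π` of `n` strands of
`q^(length π)` times the positive permutation braid of `π`, built from coset representatives. -/
noncomputable def symmetrizer : ℕ → Comb
  | 0 => 1
  | n + 1 => (∑ j ∈ Finset.range (n + 1), q ^ j • wd ((List.range j).map fun i => (n - j + i, true))) *
      symmetrizer n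

/-- The complete function `h_n = Q_(n)`: the idempotent multiple of the symmetrizer. -/
noncomputable def h (n : ℕ) : Comb :=
  (∏ k ∈ Finset.range n, ∑ j ∈ Finset.range (k + 1), q ^ (2 * j))⁻¹ • symmetrizer n

/-- Newton's recursion `p_m = m h_m - ∑ p_r h_(m-r)`, iterated; `newton k m` is `p_m` for `m ≤ k`. -/
noncomputable def newton : ℕ → ℕ → Comb
  | 0 => fun _ => 0
  | k + 1 => fun m => (m : F) • h m - ∑ r ∈ Finset.range m, newton k r * shift r (h (m - r))

/-- The power sum `P_(d)` of the skein of the annulus, on `d` strands. -/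
noncomputable def P (d : ℕ) : Comb := newton d d

/-- `{d}^L` times the invariant of the closure of `w` with every component decorated by `P_(d)`. -/
noncomputable def Z (H : ℕ → Word → F) (d n : ℕ) (w : Word) : F :=
  br d ^ (comps n w).card *
    ext H (n * d) (wd (cable d w) * (((comps n w).sort (· ≤ ·)).map fun i => shift (i * d) (P d)).prod)

/-! ### proofs -/

lemma toHF {H : ℕ → Word → F} (h : IsHomfly H) : W5h66.HF (q - q⁻¹) (algebraMap (RatFunc ℚ) F RatFunc.X) H := by
  have hb : br 1 = q - q⁻¹ := by simp [br]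
  have hq : Transcendental (RatFunc ℚ) q := RatFunc.transcendental_X
  have hz : q - q⁻¹ ≠ 0 := W5h66.z_ne hq
  have ha : algebraMap (RatFunc ℚ) F RatFunc.X = a := rfl
  rw [ha]
  refine ⟨?_, h.conj, ?_, ?_, ?_, h.stabPos, h.stabNeg, ?_⟩
  · rw [h.unknot, hb, mul_div_cancel₀ _ hz]
  · intro n v i hn hv hi; exact h.cancel n [] v i true hn hv hi
  · intro n v i j hn hv hi hj hij; exact h.far n [] v i j true true hn hv hi hj hij
  · intro n v i hn hv hi; exact h.braid n [] v i true hn hv hi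
  · intro n v i hn hv hi
    have := h.skein n [] v i hn hv hi
    rw [hb] at this; exact this

lemma symmetrizer_eq (n : ℕ) : symmetrizer n = W5h66.symc q n := by
  induction n with
  | zero => rfl
  | succ n ih =>
    have e1 : symmetrizer (n+1) = (∑ j ∈ Finset.range (n + 1), q ^ j • wd ((List.range j).map fun i => (n - j + i, true))) *
      symmetrizer n := rfl
    have e2 : W5h66.symc q (n+1) = (∑ j ∈ Finset.range (n + 1), q ^ j • wd ((List.range j).map fun i => (n - j + i, true))) *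
      W5h66.symc q n := rfl
    rw [e1, e2, ih]

lemma h_eq (n : ℕ) : h n = W5h66.hhc q n := by
  rw [h, W5h66.hhc, symmetrizer_eq]

lemma newton_eq (k m : ℕ) : newton k m = W5h66.nwc q k m := by
  induction k generalizing m with
  | zero => rfl
  | succ k ih =>
    have e1 : newton (k+1) m = (m : F) • h m - ∑ r ∈ Finset.range m, newton k r * shift r (h (m - r)) := rfl
    rw [e1, W5h66.nwc_succ, h_eq]
    congr 1
    refine Finset.sum_congr rfl (fun r _ => ?_)
    rw [ih, h_eq]; rfl

lemma P_eq (d : ℕ) : P d = W5h66.pwc q d := newton_eq d d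

lemma br_ne {k : ℕ} (hk : 0 < k) : br k ≠ 0 := by
  have hq : Transcendental (RatFunc ℚ) q := RatFunc.transcendental_X
  have hq0 : q ≠ 0 := W5h66.q_ne hq
  intro h
  unfold br at h
  have h2 : q ^ (2*k) - 1 = 0 := by
    have : q^k * (q^k - (q^k)⁻¹) = q^(2*k) - 1 := by
      rw [mul_sub, mul_inv_cancel₀ (pow_ne_zero _ hq0), two_mul, pow_add]
    rw [← this, h, mul_zero]
  have h3 : Polynomial.aeval q (Polynomial.X ^ (2*k) - 1 : Polynomial (RatFunc ℚ))
      = Polynomial.aeval q (0 : Polynomial (RatFunc ℚ)) := by simpa using h2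
  have h4 := W5h66.ev_inj hq h3
  have h5 := congrArg (Polynomial.eval 0) h4
  simp [show 2 * k ≠ 0 by omega] at h5

lemma cable_one (w : Word) : cable 1 w = w := by
  induction w with
  | nil => rfl
  | cons x w ih =>
    have : cable 1 (x :: w) = shiftWord (x.1 * 1) (band 1 x.2) ++ cable 1 w := rfl
    rw [this, ih]
    simp [shiftWord, band]

lemma fills_one (L : List ℕ) : W5h66.fills 1 L = [[]] := by
  induction L with
  | nil => rfl
  | cons i L ih =>
    simp only [W5h66.fills, ih]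
    simp [W5h66.hook, W5h66.shb]

lemma base_ne : (RatFunc.X : RatFunc ℚ) ≠ 0 ∧ (RatFunc.X : RatFunc ℚ)^2 ≠ 1 := by
  refine ⟨RatFunc.X_ne_zero, fun h => ?_⟩
  have h1 : (algebraMap (Polynomial ℚ) (RatFunc ℚ)) (Polynomial.X ^ 2) = algebraMap (Polynomial ℚ) (RatFunc ℚ) 1 := by
    rw [map_pow, RatFunc.algebraMap_X, map_one]; exact h
  have h2 := RatFunc.algebraMap_injective ℚ h1
  have h3 := congrArg (Polynomial.eval 0) h2
  simp at h3

lemma Z_eq {H : ℕ → Word → F} (hH : IsHomfly H) {d : ℕ} (hd : 0 < d) {n : ℕ} {w : Word} (hn : 1 ≤ n)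
    (hw : OnStrands n w) :
    Z H d n w = br 1 ^ (comps n w).card *
      ((W5h66.fills d ((comps n w).sort (· ≤ ·))).map fun u => H (n * d) (cable d w ++ u)).sum := by
  have hq : Transcendental (RatFunc ℚ) q := RatFunc.transcendental_X
  have hT : W5h66.IsTr n (W5h66.prm w) (comps n w) := W5h66.reps_isTr (W5h66.Supp.prm hw)
  have h := W5h66.dec_eq (E := RatFunc ℚ) (K := F) (q := q) (a := RatFunc.X) hq base_ne.1 base_ne.2
    (toHF hH) hd hn hw hT (Finset.sort_nodup (comps n w) (· ≤ ·)) (Finset.sort_toFinset _ _)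
  unfold Z
  rw [P_eq]
  have h' : ext H (n * d) (wd (cable d w) * (((comps n w).sort (· ≤ ·)).map fun i => shift (i * d) (W5h66.pwc q d)).prod)
      = (W5h66.qn q d)⁻¹ ^ ((comps n w).sort (· ≤ ·)).length
        * ((W5h66.fills d ((comps n w).sort (· ≤ ·))).map fun u => H (n * d) (cable d w ++ u)).sum := h
  rw [h', Finset.length_sort, ← mul_assoc, ← mul_pow]
  congr 2
  have h1 := br_ne one_pos
  have h2 := br_ne hd
  have e : W5h66.qn q d = br d / br 1 := by
    unfold W5h66.qn br
    rw [pow_one]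
  rw [e]
  field_simp

lemma Z_one {H : ℕ → Word → F} (hH : IsHomfly H) {n : ℕ} {w : Word} (hn : 1 ≤ n) (hw : OnStrands n w) :
    Z H 1 n w = br 1 ^ (comps n w).card * H n w := by
  rw [Z_eq hH one_pos hn hw, fills_one, cable_one, mul_one]
  simp

lemma sign_eq {p : ℕ} (hp : 1 ≤ p) {S : ℤ} {l : ℕ} (h : ((S : ℤ) : ZMod 2) = (l : ZMod 2)) :
    (-1 : F) ^ (((p : ℤ) - 1) * S) = (-1) ^ ((p - 1) * l) := by
  have h1 : (((S - l : ℤ)) : ZMod 2) = 0 := by push_cast; rw [h, sub_self]
  rw [ZMod.intCast_zmod_eq_zero_iff_dvd] at h1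
  obtain ⟨c, hc⟩ := h1
  have hS : S = l + 2 * c := by push_cast at hc; omega
  have hne : (-1 : F) ≠ 0 := by simp
  rw [hS, mul_add, zpow_add₀ hne]
  have e1 : (-1 : F) ^ (((p : ℤ) - 1) * (2 * c)) = 1 := by
    rw [show ((p : ℤ) - 1) * (2 * c) = 2 * (((p : ℤ) - 1) * c) by ring, zpow_mul]
    norm_num
  have e2 : ((p : ℤ) - 1) * l = (((p - 1) * l : ℕ) : ℤ) := by
    push_cast [Nat.cast_sub hp]; ring
  rw [e1, mul_one, e2, zpow_natCast]

/-- The framed invariant exists. -/
theorem exists_homfly : ∃ H, IsHomfly H := by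
  have hq : Transcendental (RatFunc ℚ) q := RatFunc.transcendental_X
  have hq0 : q ≠ 0 := W5h66.q_ne hq
  have hb : br 1 = q - q⁻¹ := by simp [br]
  have hz : q - q⁻¹ ≠ 0 := W5h66.z_ne hq
  have ha0 : a ≠ 0 := (_root_.map_ne_zero _).2 base_ne.1
  have haa : a - a⁻¹ ≠ 0 := by
    intro h
    have h2 : a * a = 1 := by
      have : a = a⁻¹ := sub_eq_zero.1 h
      calc a * a = a * a⁻¹ := by rw [← this]
        _ = 1 := mul_inv_cancel₀ ha0
    apply base_ne.2
    have h3 : RatFunc.C ((RatFunc.X : RatFunc ℚ)^2) = RatFunc.C 1 := by rw [map_pow, map_one, sq]; exact h2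
    exact RatFunc.C_injective h3
  have hr : ∀ k : ℕ, 0 < k → q ^ k ≠ 1 := fun k hk h =>
    W5h66.pow_ne_one hq hk (by rw [h, sub_self])
  set δ : F := (a - a⁻¹) / (q - q⁻¹) with hδ
  have hzδ : (q - q⁻¹) * δ = a - a⁻¹ := by rw [hδ, mul_div_cancel₀ _ hz]
  have hδ0 : δ ≠ 0 := div_ne_zero haa hz
  set κ : F := a / δ with hκ
  have hκδ : κ * δ = a := div_mul_cancel₀ _ hδ0
  obtain ⟨t, ht, ht1⟩ := W5h66.exists_MT hr hq0 κ
  refine ⟨fun n w => δ ^ n * t (W5h66.sv (q - q⁻¹) w), ?_, ?_, ?_, ?_, ?_, ?_, ?_, ?_⟩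
  · rw [W5h66.sv_nil, ht1, mul_one, pow_one, hb]
  · intro n u v _ _
    rw [W5h66.sv_append, W5h66.sv_append, ht.tr]
  · intro n u v i e _ _ _
    rw [W5h66.sv_append, W5h66.sv_append, W5h66.sv_cons', W5h66.sv_cons', ← mul_assoc (W5h66.lt _ i e),
      W5h66.lt_cancel, one_mul]
  · intro n u v i j e f _ _ _ _ hij
    rw [W5h66.sv_append, W5h66.sv_append, W5h66.sv_cons', W5h66.sv_cons', W5h66.sv_cons', W5h66.sv_cons',
      ← mul_assoc (W5h66.lt _ i e), W5h66.lt_far i j hij, mul_assoc (W5h66.lt _ j f)]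
  · intro n u v i e _ _ _
    simp only [W5h66.sv_append, W5h66.sv_cons']
    rw [← mul_assoc (W5h66.lt _ (i+1) e), ← mul_assoc (W5h66.lt _ i e), ← mul_assoc (W5h66.lt _ i e),
      W5h66.lt_br]
    simp only [mul_assoc]
  · intro n w hn hw
    obtain ⟨m, rfl⟩ : ∃ m, n = m + 1 := ⟨n - 1, by omega⟩
    simp only [Nat.add_sub_cancel]
    have e : W5h66.sv (q - q⁻¹) [(m, true)] = W5h66.gs (q - q⁻¹) m := by simp [W5h66.sv]
    rw [W5h66.sv_append, e, ht.mv m _ (W5h66.sv_mem hw), smul_eq_mul, ← hκδ, pow_succ δ (m+1)]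
    ring
  · intro n w hn hw
    obtain ⟨m, rfl⟩ : ∃ m, n = m + 1 := ⟨n - 1, by omega⟩
    simp only [Nat.add_sub_cancel]
    have e : W5h66.sv (q - q⁻¹) [(m, false)] = W5h66.gi (q - q⁻¹) m := by simp [W5h66.sv]
    have e2 : a⁻¹ = δ * (κ - (q - q⁻¹)) := by
      rw [mul_sub, mul_comm δ κ, hκδ, mul_comm δ, hzδ]; ring
    rw [W5h66.sv_append, e, ht.mki m (W5h66.sv_mem hw), smul_eq_mul, e2, pow_succ δ (m+1)]
    ring
  · intro n u v i _ _ _
    simp only [W5h66.sv_append, W5h66.sv_cons']
    have e : W5h66.lt (q - q⁻¹) i true = W5h66.lt (q - q⁻¹) i false + (q - q⁻¹) • 1 := by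
      simp [W5h66.lt, W5h66.gi]
    rw [e, add_mul, smul_mul_assoc, one_mul, mul_add, map_add, mul_smul_comm, map_smul, smul_eq_mul, hb]
    ring

/-- **The Hecke lifting congruence** for all framed links and all primes. The first two parts record
that the invariant and the Adams operations exist. -/
theorem result :
    (∃ H, IsHomfly H) ∧ (∀ p : ℕ, 0 < p → ∃ Ψ : F →+* F, Ψ q = q ^ p ∧ Ψ a = a ^ p) ∧
    ∀ (H : ℕ → Word → F) (_ : IsHomfly H) (p : ℕ) (_ : p.Prime) (Ψ : F →+* F) (_ : Ψ q = q ^ p)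
      (_ : Ψ a = a ^ p) (n : ℕ) (w : Word) (_ : 1 ≤ n) (_ : OnStrands n w),
      (Z H p n w - (-1) ^ (((p : ℤ) - 1) * ∑ i ∈ comps n w, framing w i) * Ψ (Z H 1 n w)) / qint p ^ 2
        ∈ Algebra.adjoin ℤ ({br 1 ^ 2, a, a⁻¹} : Set F) := by
  refine ⟨exists_homfly, fun p hp => W5h66.exists_pow hp, ?_⟩
  intro H hH p hp Ψ hΨq hΨa n w hn hw
  have hq : Transcendental (RatFunc ℚ) q := RatFunc.transcendental_X
  have hb : br 1 = q - q⁻¹ := by simp [br]
  obtain ⟨s, hs, h⟩ := W5h66.main_words (E := RatFunc ℚ) (K := F) (q := q) (a := RatFunc.X) hq base_ne.1 base_ne.2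
    (toHF hH) hp hΨq hΨa hn hw
  have hT : W5h66.IsTr n (W5h66.prm w) (W5h66.reps n (W5h66.prm w)) := W5h66.reps_isTr (W5h66.Supp.prm hw)
  have hpar := W5h66.framing_parity hw hT
  have hsign : (-1 : F) ^ (((p : ℤ) - 1) * ∑ i ∈ comps n w, framing w i) = (-1) ^ ((p - 1) * w.length) :=
    sign_eq hp.one_lt.le hpar
  have hbt : W5h66.bt (q - q⁻¹) p = qint p ^ 2 := by
    have h1 := W5h66.bt_formula (mul_inv_cancel₀ (W5h66.q_ne hq)) p
    have h2 : br 1 ≠ 0 := br_ne one_pos
    unfold qint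
    rw [div_pow, eq_div_iff (pow_ne_zero _ h2), hb, mul_comm, h1, br, inv_pow]
  have hmain : Z H p n w - (-1) ^ (((p : ℤ) - 1) * ∑ i ∈ comps n w, framing w i) * Ψ (Z H 1 n w)
      = qint p ^ 2 * s := by
    rw [hsign, Z_eq hH hp.pos hn hw, Z_one hH hn hw, ← hbt, hb]
    exact h
  have hqp : qint p ≠ 0 := div_ne_zero (br_ne hp.pos) (br_ne one_pos)
  rw [hmain, mul_div_cancel_left₀ _ (pow_ne_zero _ hqp), hb]
  have hle : W5h66.Rz (RatFunc ℚ) q (RatFunc.X : RatFunc ℚ)
      ≤ (Algebra.adjoin ℤ ({(q - q⁻¹) ^ 2, a, a⁻¹} : Set F)).toSubring :=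
    Subring.closure_le.2 Algebra.subset_adjoin
  exact hle hs

end Pool.Agent.Results.MP_21a901_gt.FramedLinks
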